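import Pool.Agent.BPH.Stmts

/-!
# BPH: algebra of the functions approximated by zonoids (for the rows VDZ and ZAK)
-/

open MeasureTheory Module Set Filter
open scoped RealInnerProductSpace Pointwise Topology ENNReal

namespace Pool.Agent.BPH.H60

section

variable {E : Type} [NormedAddCommGroup E] [InnerProductSpace ℝ E] [FiniteDimensional ℝ E]
  [MeasurableSpace E] [BorelSpace E]

theorem zapp_zero : ZApp (fun _ : E => (0 : ℝ)) := by
  intro ε _
  refine ⟨0, 0, inferInstance, by simp, ?_⟩
  intro w
  simp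

theorem int_inner {R : ℝ} {τ : Measure E} [IsFiniteMeasure τ]
    (h : τ (Metric.closedBall (0 : E) R)ᶜ = 0) (w : E) :
    Integrable (fun y : E => |⟪w, y⟫|) τ := by
  have hc : Continuous (fun y : E => |⟪w, y⟫|) := (continuous_const.inner continuous_id).abs
  refine Integrable.of_bound hc.aestronglyMeasurable (‖w‖ * R) ?_
  have h1 : ∀ᵐ y ∂τ, y ∈ Metric.closedBall (0 : E) R := h
  filter_upwards [h1] with y hy
  rw [Real.norm_eq_abs, abs_abs]
  have h2 : ‖y‖ ≤ R := by simpa using hy
  exact (abs_real_inner_le_norm w y).trans (mul_le_mul_of_nonneg_left h2 (norm_nonneg _))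

theorem zapp_add {g h : E → ℝ} (hg : ZApp g) (hh : ZApp h) : ZApp (fun w => g w + h w) := by
  intro ε hε
  obtain ⟨R1, τ1, f1, s1, e1⟩ := hg ε hε
  obtain ⟨R2, τ2, f2, s2, e2⟩ := hh ε hε
  refine ⟨max R1 R2, τ1 + τ2, inferInstance, ?_, ?_⟩
  · have h1 : τ1 (Metric.closedBall (0 : E) (max R1 R2))ᶜ = 0 :=
      measure_mono_null (compl_subset_compl.mpr (Metric.closedBall_subset_closedBall
        (le_max_left _ _))) s1
    have h2 : τ2 (Metric.closedBall (0 : E) (max R1 R2))ᶜ = 0 :=
      measure_mono_null (compl_subset_compl.mpr (Metric.closedBall_subset_closedBall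
        (le_max_right _ _))) s2
    rw [Measure.add_apply, h1, h2, add_zero]
  · intro w
    rw [integral_add_measure (int_inner s1 w) (int_inner s2 w)]
    obtain ⟨a1, b1⟩ := e1 w
    obtain ⟨a2, b2⟩ := e2 w
    constructor
    · calc (1 - ε) * (g w + h w) = (1 - ε) * g w + (1 - ε) * h w := by ring
        _ ≤ _ := add_le_add a1 a2
    · calc _ ≤ (1 + ε) * g w + (1 + ε) * h w := add_le_add b1 b2
        _ = (1 + ε) * (g w + h w) := by ring

theorem zapp_smul {g : E → ℝ} (hg : ZApp g) {t : ℝ} (ht : 0 ≤ t) : ZApp (fun w => t * g w) := by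
  intro ε hε
  obtain ⟨R1, τ1, f1, s1, e1⟩ := hg ε hε
  refine ⟨R1, (Real.toNNReal t) • τ1, inferInstance, ?_, ?_⟩
  · rw [Measure.smul_apply, s1, smul_zero]
  · intro w
    rw [integral_smul_nnreal_measure, NNReal.smul_def, Real.coe_toNNReal t ht, smul_eq_mul]
    obtain ⟨a1, b1⟩ := e1 w
    constructor
    · calc (1 - ε) * (t * g w) = t * ((1 - ε) * g w) := by ring
        _ ≤ _ := mul_le_mul_of_nonneg_left a1 ht
    · calc _ ≤ t * ((1 + ε) * g w) := mul_le_mul_of_nonneg_left b1 ht
        _ = (1 + ε) * (t * g w) := by ring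

theorem zapp_sum {ι : Type} (s : Finset ι) (t : ι → ℝ) (g : ι → E → ℝ)
    (ht : ∀ i ∈ s, 0 ≤ t i) (hg : ∀ i ∈ s, ZApp (g i)) :
    ZApp (fun w => ∑ i ∈ s, t i * g i w) := by
  classical
  induction s using Finset.induction_on with
  | empty =>
    simp only [Finset.sum_empty]
    exact zapp_zero
  | insert i s hi ih =>
    simp only [Finset.sum_insert hi]
    refine zapp_add (zapp_smul (hg i (Finset.mem_insert_self _ _))
      (ht i (Finset.mem_insert_self _ _))) (ih ?_ ?_)
    · intro j hj
      exact ht j (Finset.mem_insert_of_mem hj)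
    · intro j hj
      exact hg j (Finset.mem_insert_of_mem hj)

/-- push forward from a subspace -/
theorem zapp_sub (V : Submodule ℝ E) {g : V → ℝ} (hg : ZApp g) :
    ZApp (fun w : E => g (V.orthogonalProjectionOnto w)) := by
  intro ε hε
  obtain ⟨R1, τ1, f1, s1, e1⟩ := hg ε hε
  have hm : Measurable (fun y : V => (y : E)) := measurable_subtype_coe
  refine ⟨R1, τ1.map (fun y : V => (y : E)), inferInstance, ?_, ?_⟩
  · rw [Measure.map_apply hm Metric.isClosed_closedBall.measurableSet.compl]
    refine measure_mono_null ?_ s1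
    intro y hy
    simp only [mem_preimage, mem_compl_iff, Metric.mem_closedBall, dist_zero_right] at hy ⊢
    exact hy
  · intro w
    have hc : Continuous (fun y : E => |⟪w, y⟫|) := (continuous_const.inner continuous_id).abs
    rw [integral_map hm.aemeasurable hc.aestronglyMeasurable]
    have h1 : ∀ y : V, ⟪w, (y : E)⟫ = ⟪V.orthogonalProjectionOnto w, y⟫ := by
      intro y
      rw [← Submodule.inner_orthogonalProjectionOnto_eq_of_mem_right]
    simp only [h1]
    exact e1 _

end

end Pool.Agent.BPH.H60
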